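import Pool.Agent.helper80.SV.Spec

set_option autoImplicit false

namespace Pool.Agent.SV

open MvPolynomial Module

/-- adding the kernel of a linear map whose rank on a bigger space is at most `D` -/
theorem ALR_drop {V W : Type} [AddCommGroup V] [Module ℂ V] [AddCommGroup W] [Module ℂ W]
    (S T : Submodule ℂ V) [Module.Finite ℂ T] (hST : S ≤ T) (G : V →ₗ[ℂ] W) (D : ℕ)
    (hD : finrank ℂ (LinearMap.range (G ∘ₗ T.subtype)) ≤ D) :
    finrank ℂ S ≤ finrank ℂ ↥(S ⊓ LinearMap.ker G) + D := by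
  have : Module.Finite ℂ S := Submodule.finiteDimensional_of_le hST
  have h1 := LinearMap.finrank_range_add_finrank_ker (G ∘ₗ S.subtype)
  have h2 : finrank ℂ (LinearMap.range (G ∘ₗ S.subtype)) ≤ D := by
    refine le_trans ?_ hD
    have : Module.Finite ℂ (LinearMap.range (G ∘ₗ T.subtype)) := inferInstance
    apply Submodule.finrank_mono
    rintro _ ⟨v, rfl⟩
    exact ⟨⟨v.1, hST v.2⟩, rfl⟩
  have h3 : finrank ℂ (LinearMap.ker (G ∘ₗ S.subtype)) = finrank ℂ ↥(S ⊓ LinearMap.ker G) := by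
    rw [LinearMap.ker_comp]
    have h4 := LinearEquiv.finrank_eq
      (Submodule.equivMapOfInjective S.subtype S.injective_subtype ((LinearMap.ker G).comap S.subtype))
    rw [h4, Submodule.map_comap_subtype]
  omega

theorem ALR_Dk {k : ℕ} (n d : Fin k → ℕ) (hd : ∀ i, 1 ≤ d i) :
    Dk (Sigma.fst : Var n → Fin k) Finset.univ d = ∑ i, n i + 1 := by
  classical
  unfold Dk
  have h1 : (Finset.univ.filter (fun i : Fin k => 1 ≤ d i)) = Finset.univ := by
    ext i; simp [hd i]
  have h2 : ∀ i : Fin k, (Finset.univ.filter (fun v : Var n => v.1 = i)).card = n i + 1 := by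
    intro i
    have h3 : (Finset.univ.filter (fun v : Var n => v.1 = i)) =
        (Finset.univ : Finset (Fin (n i + 1))).map
          ⟨fun j => (⟨i, j⟩ : Var n), fun a b h => by simpa using h⟩ := by
      ext v
      simp only [Finset.mem_filter, Finset.mem_univ, true_and, Finset.mem_map]
      constructor
      · intro h
        obtain ⟨i', j⟩ := v
        simp only at h
        subst h
        exact ⟨j, rfl⟩
      · rintro ⟨j, rfl⟩
        rfl
    rw [h3, Finset.card_map, Finset.card_univ, Fintype.card_fin]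
  rw [h1, Finset.sum_congr rfl (fun i _ => by rw [h2 i])]
  simp [add_comm]

theorem ALR_step (hRKU : RKU_stmt) {k : ℕ} (n d : Fin k → ℕ) (hd : ∀ i, 1 ≤ d i)
    (X : ℕ → Var n → ℂ) (t : ℕ) :
    finrank ℂ ↥(Sng (Sigma.fst : Var n → Fin k) d (fun i : Fin t => X i)) ≤
      finrank ℂ ↥(Sng (Sigma.fst : Var n → Fin k) d (fun i : Fin (t + 1) => X i)) + (∑ i, n i + 1) := by
  classical
  have h1 : Sng (Sigma.fst : Var n → Fin k) d (fun i : Fin (t + 1) => X i) =
      Sng (Sigma.fst : Var n → Fin k) d (fun i : Fin t => X i) ⊓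
        LinearMap.ker (gradL Finset.univ (X t)) := by
    ext f
    simp only [Sng, Submodule.mem_inf, Submodule.mem_iInf]
    constructor
    · rintro ⟨h2, h3⟩
      exact ⟨⟨h2, fun i => h3 i.castSucc⟩, h3 (Fin.last t)⟩
    · rintro ⟨⟨h2, h3⟩, h4⟩
      refine ⟨h2, fun i => ?_⟩
      refine Fin.lastCases ?_ (fun j => ?_) i
      · exact h4
      · exact h3 j
  rw [h1]
  refine ALR_drop _ (Sec (Sigma.fst : Var n → Fin k) Finset.univ d) inf_le_left _ _ ?_
  have h5 := (hRKU (Sigma.fst : Var n → Fin k) Finset.univ Finset.univ d (le_refl _)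
    (fun i => ⟨⟨i, 0⟩, Finset.mem_univ _, rfl⟩) (X t)).1
  rw [ALR_Dk n d hd] at h5
  have h6 : cut (Finset.univ : Finset (Var n)) (X t) = X t := by
    funext i; simp [cut]
  unfold Phi1 at h5
  rw [if_neg (by simp), h6] at h5
  exact h5

theorem ALR_ext {k r : ℕ} {n : Fin k → ℕ} (x : Fin r → Var n → ℂ) :
    ∃ X : ℕ → Var n → ℂ, (fun i : Fin r => X i) = x :=
  ⟨fun i => if h : i < r then x ⟨i, h⟩ else 0, by
    funext i
    simp [i.2]⟩

theorem ALR (hGNF : GNF_stmt) (hRKU : RKU_stmt) : ALR_stmt := by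
  classical
  intro k n d hk hd hcrit hsp
  obtain ⟨r, -, hr⟩ := hsp
  apply hr
  set h : ℕ := finrank ℂ (MultiHom n d) with hh
  set N : ℕ := ∑ i, n i with hN
  rcases Nat.lt_or_ge (h / (N + 1)) r with hlt | hle
  · -- `r ≥ r₁`
    obtain ⟨x, hx⟩ := hcrit ((h + N) / (N + 1)) (Or.inr rfl)
    obtain ⟨X, hX⟩ := ALR_ext x
    have h1 : (h + N) / (N + 1) ≤ r := by
      have h2 : (h + N) / (N + 1) ≤ h / (N + 1) + 1 := by
        calc (h + N) / (N + 1) ≤ (h + (N + 1)) / (N + 1) := Nat.div_le_div_right (by omega)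
          _ = h / (N + 1) + 1 := Nat.add_div_right _ (Nat.succ_pos N)
      omega
    have h3 : h - (h + N) / (N + 1) * (N + 1) = 0 := by
      have h4 := Nat.div_add_mod (h + N) (N + 1)
      have h5 : (h + N) % (N + 1) < N + 1 := Nat.mod_lt (h + N) (Nat.succ_pos N)
      have h6 : (N + 1) * ((h + N) / (N + 1)) = (h + N) / (N + 1) * (N + 1) := mul_comm _ _
      omega
    refine hGNF k n d hk hd r (fun i : Fin r => X i) ?_
    show _ ≤ h - r * (N + 1)
    have h7 : finrank ℂ ↥(Sng (Sigma.fst : Var n → Fin k) d (fun i : Fin r => X i)) ≤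
        finrank ℂ ↥(Sng (Sigma.fst : Var n → Fin k) d x) := by
      have : Module.Finite ℂ ↥(Sng (Sigma.fst : Var n → Fin k) d x) :=
        Submodule.finiteDimensional_of_le (S₂ := Sec (Sigma.fst : Var n → Fin k) Finset.univ d) inf_le_left
      apply Submodule.finrank_mono
      rw [← hX]
      intro f hf
      simp only [Sng, Submodule.mem_inf, Submodule.mem_iInf] at hf ⊢
      exact ⟨hf.1, fun i => hf.2 ⟨i, lt_of_lt_of_le i.2 h1⟩⟩
    rw [h3] at hx
    omega
  · -- `r ≤ r₀`
    obtain ⟨x, hx⟩ := hcrit (h / (N + 1)) (Or.inl rfl)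
    obtain ⟨X, hX⟩ := ALR_ext x
    refine hGNF k n d hk hd r (fun i : Fin r => X i) ?_
    show _ ≤ h - r * (N + 1)
    have key : ∀ t : ℕ, finrank ℂ ↥(Sng (Sigma.fst : Var n → Fin k) d (fun i : Fin r => X i)) ≤
        finrank ℂ ↥(Sng (Sigma.fst : Var n → Fin k) d (fun i : Fin (r + t) => X i)) + t * (N + 1) := by
      intro t
      induction t with
      | zero => simp
      | succ t ih =>
        have h2 := ALR_step hRKU n d hd X (r + t)
        rw [Nat.succ_mul]
        have h3 : r + (t + 1) = r + t + 1 := rfl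
        rw [h3]
        omega
    obtain ⟨t, ht⟩ := Nat.exists_eq_add_of_le hle
    have h1 := key t
    rw [← ht, hX] at h1
    have h2 : h / (N + 1) * (N + 1) ≤ h := Nat.div_mul_le_self h (N + 1)
    have h3 : h / (N + 1) * (N + 1) = r * (N + 1) + t * (N + 1) := by rw [ht, Nat.add_mul]
    omega

end Pool.Agent.SV
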