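import Pool.Agent.helper65.SV.SpecE

set_option autoImplicit false

namespace Pool.Agent.SV

open Module Polynomial

theorem PBS_count {h : Polynomial ℂ} {m : ℕ} (h1 : h.natDegree = m ∧ h.roots.toFinset.card = m)
    (τ : ℂ) : h.roots.count τ ≤ 1 := by
  have h2 : h.roots.card ≤ h.roots.toFinset.card := by
    rw [h1.2, ← h1.1]
    exact card_roots' h
  have h3 : h.roots.Nodup := Multiset.toFinset_card_eq_card_iff_nodup.1
    (le_antisymm (Multiset.toFinset_card_le _) h2)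
  exact Multiset.nodup_iff_count_le_one.1 h3 τ

theorem PBS_ne {h : Polynomial ℂ} {m : ℕ} (hm : 1 ≤ m) (h1 : h.natDegree = m ∧ h.roots.toFinset.card = m) :
    h ≠ 0 := by
  rintro rfl
  have := h1.1
  simp at this
  omega

/-- divisibility -/
theorem PBS_dvd {ι : Type} [DecidableEq ι] (s : Finset ι) (i₀ : ι) (hi₀ : i₀ ∉ s) (h : ι → Polynomial ℂ) {m : ℕ}
    (hm : 1 ≤ m) (h1 : ∀ i, (h i).natDegree = m ∧ (h i).roots.toFinset.card = m)
    (h2 : ∀ i j, i ≠ j → Disjoint (h i).roots.toFinset (h j).roots.toFinset) (P : Polynomial ℂ)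
    (h3 : ∀ τ ∈ (h i₀).roots, P.eval τ = 0 ∧ (derivative P).eval τ = 0)
    (h4 : ∀ i ∈ s, ∀ τ ∈ (h i).roots, P.eval τ = 0) :
    h i₀ ^ 2 * ∏ i ∈ s, h i ∣ P := by
  by_cases hP : P = 0
  · rw [hP]
    exact dvd_zero _
  have hne : ∀ i, h i ≠ 0 := fun i => PBS_ne hm (h1 i)
  have hprod : ∏ i ∈ s, h i ≠ 0 := Finset.prod_ne_zero_iff.2 fun i _ => hne i
  have hall : h i₀ ^ 2 * ∏ i ∈ s, h i ≠ 0 := mul_ne_zero (pow_ne_zero _ (hne i₀)) hprod
  rw [Splits.dvd_iff_roots_le_roots (IsAlgClosed.splits _) hall hP, Multiset.le_iff_count]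
  intro τ
  rw [roots_mul hall, roots_pow, roots_prod _ _ hprod, Multiset.count_add, Multiset.count_nsmul,
    Multiset.count_bind]
  change 2 * Multiset.count τ (h i₀).roots + ∑ i ∈ s, (h i).roots.count τ ≤ _
  have hzero : ∀ i, (h i).roots.count τ ≠ 0 → ∀ j, j ≠ i → (h j).roots.count τ = 0 := by
    intro i hi j hj
    by_contra hj'
    replace hj' : (h j).roots.count τ ≠ 0 := hj'
    rw [Multiset.count_ne_zero] at hi hj'
    exact Finset.disjoint_left.1 (h2 j i hj) (Multiset.mem_toFinset.2 hj') (Multiset.mem_toFinset.2 hi)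
  by_cases hi₀τ : (h i₀).roots.count τ = 0
  · rw [hi₀τ, mul_zero, zero_add]
    by_cases hex : ∃ i ∈ s, (h i).roots.count τ ≠ 0
    · obtain ⟨i, hi, hiτ⟩ := hex
      have e1 : ∑ j ∈ s, (h j).roots.count τ = (h i).roots.count τ :=
        Finset.sum_eq_single_of_mem i hi fun j _ hj => hzero i hiτ j hj
      rw [e1]
      refine (PBS_count (h1 i) τ).trans ?_
      rw [Nat.one_le_iff_ne_zero, Multiset.count_ne_zero, mem_roots hP]
      exact h4 i hi τ (Multiset.count_ne_zero.1 hiτ)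
    · push Not at hex
      rw [Finset.sum_eq_zero hex]
      exact Nat.zero_le _
  · have e1 : ∑ j ∈ s, (h j).roots.count τ = 0 := Finset.sum_eq_zero fun j hj =>
      hzero i₀ hi₀τ j (fun e => hi₀ (e ▸ hj))
    rw [e1, add_zero]
    have e2 := PBS_count (h1 i₀) τ
    have e3 := h3 τ (Multiset.count_ne_zero.1 hi₀τ)
    have e4 : 1 < P.rootMultiplicity τ := (one_lt_rootMultiplicity_iff_isRoot hP).2 ⟨e3.1, e3.2⟩
    have e5 : P.roots.count τ = P.rootMultiplicity τ := count_roots P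
    omega

theorem PBS (hPCH : PCH_stmt) (hPFI : PFI_stmt) (hPNB : PNB_stmt) : PBS_stmt := by
  intro K _ _ _ n m E h hm h1 h2 F hF hS
  obtain ⟨c1, c2, c3, c4, c5, c6, c7⟩ := hPCH K n
  obtain ⟨n1, n2, n3, n4⟩ := hPNB K n
  have hdvd : ∀ χ, sfun h χ ∣ hatF F χ := by
    intro χ
    unfold sfun
    refine PBS_dvd _ χ ?_ h hm h1 h2 (hatF F χ) ?_ ?_
    · simp
    · intro τ hτ
      have e := (hPFI K n F χ τ).1 (hS χ τ hτ)
      exact ⟨e.1 χ (by simp), e.2⟩
    · intro χ' hχ' τ hτ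
      have e := (hPFI K n F χ' τ).1 (hS χ' τ hτ)
      refine e.1 χ ?_
      rw [hammingDist_comm]
      exact (Finset.mem_filter.1 hχ').2.le
  choose q hq using hdvd
  have hne : ∀ χ, h χ ≠ 0 := fun χ => PBS_ne hm (h1 χ)
  have hsne : ∀ χ, sfun h χ ≠ 0 := fun χ => mul_ne_zero (pow_ne_zero _ (hne χ))
    (Finset.prod_ne_zero_iff.2 fun i _ => hne i)
  have hsdeg : ∀ χ, (sfun h χ).natDegree = m * (∑ i, n i + 2) := by
    intro χ
    unfold sfun
    rw [natDegree_mul (pow_ne_zero _ (hne χ)) (Finset.prod_ne_zero_iff.2 fun i _ => hne i),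
      natDegree_pow, (h1 χ).1, natDegree_prod _ _ fun i _ => hne i,
      Finset.sum_congr rfl fun i _ => (h1 i).1, Finset.sum_const, n1 χ, smul_eq_mul]
    ring
  have hhat : ∀ χ, hatF F χ ∈ degreeLT ℂ E := by
    intro χ
    unfold hatF
    refine Submodule.sum_mem _ fun c _ => ?_
    rw [← smul_eq_C_mul]
    exact Submodule.smul_mem _ _ (hF c)
  have hqdeg : ∀ χ, q χ ∈ degreeLT ℂ (E - m * (∑ i, n i + 2)) := by
    intro χ
    by_cases hq0 : q χ = 0
    · rw [hq0]
      exact Submodule.zero_mem _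
    have e1 := hhat χ
    rw [hq χ, mem_degreeLT, degree_mul, degree_eq_natDegree (hsne χ), degree_eq_natDegree hq0, hsdeg] at e1
    rw [mem_degreeLT, degree_eq_natDegree hq0]
    norm_cast at e1 ⊢
    omega
  have hcard : (Fintype.card (Cell n) : ℂ) ≠ 0 := by
    exact_mod_cast Fintype.card_ne_zero
  have horth : ∀ χ χ' : Cell n, ∑ c, chr χ c * chr χ' (-c) =
      if χ = χ' then (Fintype.card (Cell n) : ℂ) else 0 := by
    intro χ χ'
    have e1 : ∀ c : Cell n, chr χ c * chr χ' (-c) = chr c (χ - χ') := by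
      intro c
      have a1 : chr c (χ - χ') * chr c χ' = chr c χ := by
        rw [← c1 c, sub_add_cancel]
      have a2 : chr χ' (-c) * chr χ' c = 1 := by
        rw [← c1 χ', neg_add_cancel, c4]
      rw [c2 χ c]
      have a3 := c3 χ' c
      refine mul_right_cancel₀ a3 ?_
      rw [mul_assoc, a2, mul_one, c2 χ' c, a1]
    rw [Finset.sum_congr rfl fun c _ => e1 c, c5 (χ - χ')]
    simp only [sub_eq_zero]
  refine ⟨fun c => C ((Fintype.card (Cell n) : ℂ)⁻¹) * ∑ χ, C (chr χ (-c)) * q χ, fun c => ?_, fun χ => ?_⟩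
  · beta_reduce
    rw [← smul_eq_C_mul]
    refine Submodule.smul_mem _ _ (Submodule.sum_mem _ fun χ _ => ?_)
    rw [← smul_eq_C_mul]
    exact Submodule.smul_mem _ _ (hqdeg χ)
  · rw [hq χ]
    congr 1
    unfold hatF
    have e1 : ∑ c : Cell n, C (chr χ c) * (C ((Fintype.card (Cell n) : ℂ)⁻¹) * ∑ χ', C (chr χ' (-c)) * q χ') =
        C ((Fintype.card (Cell n) : ℂ)⁻¹) * ∑ χ', C (∑ c, chr χ c * chr χ' (-c)) * q χ' := by
      rw [Finset.mul_sum]
      simp only [Finset.mul_sum, map_sum, Finset.sum_mul, map_mul]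
      rw [Finset.sum_comm]
      refine Finset.sum_congr rfl fun χ' _ => Finset.sum_congr rfl fun c _ => ?_
      ring
    rw [e1, Finset.sum_congr rfl fun χ' _ => by rw [horth χ χ']]
    rw [Finset.sum_eq_single χ]
    · rw [if_pos rfl, ← mul_assoc, ← C_mul, inv_mul_cancel₀ hcard, C_1, one_mul]
    · intro χ' _ hχ'
      rw [if_neg (Ne.symm hχ'), C_0, zero_mul]
    · intro hχ
      exact absurd (Finset.mem_univ χ) hχ

end Pool.Agent.SV
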